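import Pool.Agent.L7h10.AB.Stm2

set_option autoImplicit false

/-!
# Project AB, part CB
-/

namespace Pool.Agent.L7h82.AB

open Polynomial Pool.Agent.L7h10.AB

theorem card_le_of_rel {T E : Type} [Finite E] (R : E → T → Prop) (h1 : ∀ x, ∃ e, R e x)
    (h2 : ∀ e x y, R e x → R e y → x = y) : Nat.card T ≤ Nat.card E := by
  choose f hf using h1
  refine Nat.card_le_card_of_injective f (fun x y hxy => h2 (f x) x y (hf x) ?_)
  rw [hxy]; exact hf y

theorem cube {K : Type} [Field K] (h2 : (2 : K) ≠ 0) (b : K) (F : K[X])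
    (h : (X - C b) ^ 2 ∣ derivative F) : (X - C b) ^ 3 ∣ F - C (F.eval b) := by
  have h0 : (X - C b) ∣ F - C (F.eval b) := by
    rw [dvd_iff_isRoot]; simp [IsRoot]
  obtain ⟨A, hA⟩ := h0
  have hX : (X - C b : K[X]) ≠ 0 := X_sub_C_ne_zero b
  have hd : derivative F = A + (X - C b) * derivative A := by
    have h3 := congrArg derivative hA
    rw [derivative_sub, derivative_C, sub_zero, derivative_mul, derivative_sub, derivative_X,
      derivative_C, sub_zero, one_mul] at h3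
    exact h3
  have h1 : (X - C b) ∣ A := by
    have h3 : (X - C b) ∣ derivative F := (dvd_pow_self _ two_ne_zero).trans h
    rw [hd] at h3
    exact (dvd_add_left (dvd_mul_right _ _)).1 h3
  obtain ⟨B, hB⟩ := h1
  have hd2 : derivative F = (X - C b) * (C 2 * B + (X - C b) * derivative B) := by
    rw [hd, hB, derivative_mul, derivative_sub, derivative_X, derivative_C, sub_zero, one_mul]
    have : (C (2 : K) : K[X]) = 2 := rfl
    rw [this]
    ring
  have h4 : (X - C b) ∣ C 2 * B + (X - C b) * derivative B := by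
    rw [hd2, pow_two] at h
    exact (mul_dvd_mul_iff_left hX).1 h
  have h5 : (X - C b) ∣ C 2 * B := (dvd_add_left (dvd_mul_right _ _)).1 h4
  have h6 : (X - C b) ∣ B := by
    have h7 : IsUnit (C (2 : K)) := isUnit_C.2 (IsUnit.mk0 _ h2)
    exact (h7.dvd_mul_left).1 h5
  obtain ⟨D, hD⟩ := h6
  exact ⟨D, by rw [hA, hB, hD]; ring⟩

/-- splitting off a linear factor -/
theorem split {K : Type} [Field K] (m : ℕ) (f : Mon K (m + 1)) (b : K) (h : f.1.eval b = 0) :
    ∃ l : Mon K m, f.1 = (X - C b) * l.1 := by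
  obtain ⟨l, hl⟩ := (dvd_iff_isRoot.2 h : (X - C b) ∣ f.1)
  have h1 : l.Monic := by
    have h2 := f.2.1
    rw [hl] at h2
    exact (monic_X_sub_C b).of_mul_monic_left h2
  have h3 : l.natDegree = m := by
    have h4 := f.2.2
    rw [hl, (monic_X_sub_C b).natDegree_mul h1, natDegree_X_sub_C] at h4
    omega
  exact ⟨⟨l, h1, h3⟩, hl⟩

theorem s_CB : S_CB := by
  intro hCARD hRES K _ _ p _ n hn hp
  classical
  have fin : ∀ m, Finite (Mon K m) := fun m => (hCARD K m).1
  have crd : ∀ m, Nat.card (Mon K m) = Nat.card K ^ m := fun m => (hCARD K m).2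
  have hcast : ∀ k : ℕ, 0 < k → k < p → ((k : ℕ) : K) ≠ 0 := by
    intro k h0 hk h
    have := Nat.le_of_dvd h0 ((CharP.cast_eq_zero_iff K p k).1 h)
    omega
  have h2 : (2 : K) ≠ 0 := by
    have := hcast 2 (by norm_num) (by omega)
    exact_mod_cast this
  have hn1 : (n : K) + 1 ≠ 0 := by
    have := hcast (n + 1) (by omega) hp
    exact_mod_cast this
  -- the first kind
  let P : (K × Mon K 2) × K → Mon K (n - 3) → Prop := fun t h =>
    t.1.2.1.eval t.1.1 ≠ 0 ∧ (X - C t.1.1) ^ 3 ∣ t.1.2.1 ^ 2 * h.1 - C t.2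
  let W : Type := {w : ((K × Mon K 2) × K) × Mon K (n - 3) // P w.1 w.2}
  have hW : Nat.card W ≤ Nat.card K ^ (n - 2) := by
    have e1 : Nat.card W = Nat.card (Σ t : (K × Mon K 2) × K, {h : Mon K (n - 3) // P t h}) :=
      Nat.card_congr (Equiv.subtypeProdEquivSigmaSubtype P)
    have : Fintype ((K × Mon K 2) × K) := Fintype.ofFinite _
    rw [e1, Nat.card_sigma]
    have hb : ∀ t : (K × Mon K 2) × K,
        Nat.card {h : Mon K (n - 3) // P t h} ≤ Nat.card K ^ (n - 6) := by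
      intro t
      by_cases hne : Nonempty {h : Mon K (n - 3) // P t h}
      · obtain ⟨⟨r, hr0, hr⟩⟩ := hne
        have h3 := hRES K (n - 3) ((X - C t.1.1) ^ 3) r.1 ((monic_X_sub_C _).pow 3) (by
          rw [natDegree_pow, natDegree_X_sub_C]; omega)
        rw [natDegree_pow, natDegree_X_sub_C, show n - 3 - 3 * 1 = n - 6 by omega] at h3
        rw [← h3]
        have hsub : ∀ h : Mon K (n - 3), P t h → (X - C t.1.1) ^ 3 ∣ h.1 - r.1 := by
          intro h hh
          have h4 : (X - C t.1.1) ^ 3 ∣ t.1.2.1 ^ 2 * (h.1 - r.1) := by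
            have h5 := dvd_sub hh.2 hr
            have h6 : t.1.2.1 ^ 2 * h.1 - C t.2 - (t.1.2.1 ^ 2 * r.1 - C t.2) =
              t.1.2.1 ^ 2 * (h.1 - r.1) := by ring
            rwa [h6] at h5
          have h7 : IsCoprime ((X - C t.1.1) ^ 3) (t.1.2.1 ^ 2) := by
            apply IsCoprime.pow
            rw [(irreducible_X_sub_C t.1.1).coprime_iff_not_dvd, dvd_iff_isRoot]
            exact hr0
          exact h7.dvd_of_dvd_mul_left h4
        exact Nat.card_le_card_of_injective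
          (fun h : {h : Mon K (n - 3) // P t h} =>
            (⟨h.1, hsub h.1 h.2⟩ : {h : Mon K (n - 3) // (X - C t.1.1) ^ 3 ∣ h.1 - r.1}))
          (fun h h' hh => Subtype.ext (congrArg (fun z => z.1) hh))
      · rw [not_nonempty_iff] at hne
        rw [Nat.card_of_isEmpty]
        exact Nat.zero_le _
    calc ∑ t, Nat.card {h : Mon K (n - 3) // P t h}
        ≤ ∑ _t : (K × Mon K 2) × K, Nat.card K ^ (n - 6) := Finset.sum_le_sum fun t _ => hb t
      _ = Nat.card ((K × Mon K 2) × K) * Nat.card K ^ (n - 6) := by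
          rw [Finset.sum_const, Finset.card_univ, smul_eq_mul,
            Nat.card_eq_fintype_card (α := (K × Mon K 2) × K)]
      _ = Nat.card K ^ (n - 2) := by
          rw [Nat.card_prod, Nat.card_prod, crd]
          rw [show n - 2 = 1 + 2 + 1 + (n - 6) by omega]
          ring
      _ ≤ _ := le_rfl
  let E : Type := W ⊕ ((K × Mon K (n - 3)) ⊕ (K × (Mon K 1 × Mon K (n - 4))))
  have hE : Nat.card E ≤ 3 * Nat.card K ^ (n - 2) := by
    have e1 : Nat.card E = Nat.card W + (Nat.card K * Nat.card K ^ (n - 3) +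
        Nat.card K * (Nat.card K ^ 1 * Nat.card K ^ (n - 4))) := by
      rw [Nat.card_sum, Nat.card_sum, Nat.card_prod, Nat.card_prod, Nat.card_prod, crd, crd, crd]
    have e2 : Nat.card K * Nat.card K ^ (n - 3) = Nat.card K ^ (n - 2) := by
      rw [show n - 2 = 1 + (n - 3) by omega]; ring
    have e3 : Nat.card K * (Nat.card K ^ 1 * Nat.card K ^ (n - 4)) = Nat.card K ^ (n - 2) := by
      rw [show n - 2 = 1 + (1 + (n - 4)) by omega]; ring
    rw [e1, e2, e3]
    omega
  refine le_trans ?_ hE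
  let T : Type := {x : (K × Mon K (n - 2)) × (Mon K 2 × Mon K (n - 3)) //
    (X - C x.1.1) ^ 2 * x.1.2.1 = C ((n : K) + 1)⁻¹ * derivative (x.2.1.1 ^ 2 * x.2.2.1)}
  have huniq : ∀ x y : T, x.1.1.1 = y.1.1.1 → x.1.2.1 = y.1.2.1 → x.1.2.2 = y.1.2.2 → x = y := by
    rintro ⟨⟨⟨b, k⟩, ⟨g, h⟩⟩, hx⟩ ⟨⟨⟨b', k'⟩, ⟨g', h'⟩⟩, hy⟩ h1 h2 h3
    dsimp only at h1 h2 h3 hx hy
    subst h1 h2 h3
    have h4 : k.1 = k'.1 := by
      have h5 : (X - C b) ^ 2 * k.1 = (X - C b) ^ 2 * k'.1 := hx.trans hy.symm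
      exact mul_left_cancel₀ (pow_ne_zero 2 (X_sub_C_ne_zero b)) h5
    have h5 : k = k' := Subtype.ext h4
    subst h5
    rfl
  let R : E → T → Prop := fun e x => match e with
    | .inl w => w.1.1.1.1 = x.1.1.1 ∧ w.1.1.1.2 = x.1.2.1 ∧ w.1.2 = x.1.2.2
    | .inr (.inl v) => v.1 = x.1.1.1 ∧ x.1.2.1.1 = (X - C v.1) ^ 2 ∧ v.2 = x.1.2.2
    | .inr (.inr v) => v.1 = x.1.1.1 ∧ x.1.2.1.1 = (X - C v.1) * v.2.1.1 ∧
        x.1.2.2.1 = (X - C v.1) * v.2.2.1
  have hfE : Finite E := by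
    have : Finite W := Subtype.finite
    infer_instance
  refine card_le_of_rel (T := T) (E := E) R ?_ ?_
  · rintro ⟨⟨⟨b, k⟩, ⟨g, h⟩⟩, hx⟩
    dsimp only at hx
    have hdvd : (X - C b) ^ 2 ∣ derivative (g.1 ^ 2 * h.1) := by
      refine ⟨C ((n : K) + 1) * k.1, ?_⟩
      have h5 : C ((n : K) + 1) * (C ((n : K) + 1)⁻¹ * derivative (g.1 ^ 2 * h.1)) =
          derivative (g.1 ^ 2 * h.1) := by
        rw [← mul_assoc, ← C_mul, mul_inv_cancel₀ hn1, C_1, one_mul]
      rw [← h5, ← hx]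
      ring
    have hc := cube h2 b _ hdvd
    by_cases hg : g.1.eval b = 0
    · -- the value is zero
      have hv : (g.1 ^ 2 * h.1).eval b = 0 := by
        rw [eval_mul, eval_pow, hg]; ring
      rw [hv, C_0, sub_zero] at hc
      obtain ⟨l, hl⟩ := split 1 g b hg
      have h6 : (X - C b) ∣ l.1 ^ 2 * h.1 := by
        have h7 : (X - C b) ^ 2 * (X - C b) ∣ (X - C b) ^ 2 * (l.1 ^ 2 * h.1) := by
          have h8 : (X - C b) ^ 2 * (l.1 ^ 2 * h.1) = g.1 ^ 2 * h.1 := by rw [hl]; ring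
          rw [h8, ← pow_succ]
          exact hc
        exact (mul_dvd_mul_iff_left (pow_ne_zero 2 (X_sub_C_ne_zero b))).1 h7
      have h9 : l.1.eval b = 0 ∨ h.1.eval b = 0 := by
        rw [dvd_iff_isRoot, IsRoot, eval_mul, eval_pow] at h6
        rcases mul_eq_zero.1 h6 with h10 | h10
        · exact Or.inl (pow_eq_zero_iff two_ne_zero |>.1 h10)
        · exact Or.inr h10
      rcases h9 with h9 | h9
      · obtain ⟨o, ho⟩ := split 0 l b h9
        have h11 : o.1 = 1 := o.2.1.natDegree_eq_zero.1 o.2.2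
        refine ⟨.inr (.inl (b, h)), rfl, ?_, rfl⟩
        show g.1 = (X - C b) ^ 2
        rw [hl, ho, h11]; ring
      · have h12 : n - 3 = (n - 4) + 1 := by omega
        have h13 : ∃ k' : Mon K (n - 4), h.1 = (X - C b) * k'.1 := by
          have := split (n - 4) ⟨h.1, h.2.1, by rw [h.2.2]; exact h12⟩ b h9
          exact this
        obtain ⟨k', hk'⟩ := h13
        exact ⟨.inr (.inr (b, (l, k'))), rfl, hl, hk'⟩
    · exact ⟨.inl ⟨(((b, g), (g.1 ^ 2 * h.1).eval b), h), hg, hc⟩, rfl, rfl, rfl⟩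
  · rintro (w | v | v) x y hx hy
    · obtain ⟨a1, a2, a3⟩ := hx
      obtain ⟨b1, b2, b3⟩ := hy
      exact huniq x y (a1.symm.trans b1) (a2.symm.trans b2) (a3.symm.trans b3)
    · obtain ⟨a1, a2, a3⟩ := hx
      obtain ⟨b1, b2, b3⟩ := hy
      exact huniq x y (a1.symm.trans b1) (Subtype.ext (a2.trans b2.symm)) (a3.symm.trans b3)
    · obtain ⟨a1, a2, a3⟩ := hx
      obtain ⟨b1, b2, b3⟩ := hy
      exact huniq x y (a1.symm.trans b1) (Subtype.ext (a2.trans b2.symm))
        (Subtype.ext (a3.trans b3.symm))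

end Pool.Agent.L7h82.AB
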